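import Pool.Agent.helper35.MR.SpecB

/-! Module CMR of project mr (MP_b48e27_co): compression of eight integers. -/

set_option autoImplicit false

open Finset

namespace Pool.Agent.helper35.MR

open Pool.Agent.RRank

theorem CMR : CMR_stmt := by
  intro x y
  classical
  set S : Finset ℤ := Finset.univ.image x ∪ Finset.univ.image y with hS
  have hcard : S.card ≤ 8 := by
    calc S.card ≤ (Finset.univ.image x).card + (Finset.univ.image y).card :=
          Finset.card_union_le _ _
      _ ≤ 4 + 4 := by
          apply Nat.add_le_add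
          · exact Finset.card_image_le.trans (by simp)
          · exact Finset.card_image_le.trans (by simp)
  set rk : ℤ → ℕ := fun v => (S.filter (fun s => s < v)).card with hrk
  have hmono : ∀ u ∈ S, ∀ v ∈ S, (u < v ↔ rk u < rk v) := by
    intro u hu v hv
    have key : ∀ u ∈ S, ∀ v, u < v → rk u < rk v := by
      intro u hu v huv
      apply Finset.card_lt_card
      rw [Finset.ssubset_iff_of_subset]
      · exact ⟨u, Finset.mem_filter.2 ⟨hu, huv⟩, fun h => lt_irrefl u (Finset.mem_filter.1 h).2⟩
      · intro s hs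
        rw [Finset.mem_filter] at hs ⊢
        exact ⟨hs.1, hs.2.trans huv⟩
    constructor
    · exact key u hu v
    · intro h
      by_contra hc
      rcases (not_lt.1 hc).lt_or_eq with h2 | h2
      · have := key v hv u h2
        omega
      · rw [h2] at h
        exact lt_irrefl _ h
  have hlt : ∀ v ∈ S, rk v < 8 := by
    intro v hv
    have : (S.filter (fun s => s < v)).card < S.card := by
      apply Finset.card_lt_card
      rw [Finset.ssubset_iff_of_subset (Finset.filter_subset _ _)]
      exact ⟨v, hv, fun h => lt_irrefl v (Finset.mem_filter.1 h).2⟩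
    exact this.trans_le hcard
  have hx : ∀ α, x α ∈ S := fun α =>
    Finset.mem_union_left _ (Finset.mem_image_of_mem _ (Finset.mem_univ _))
  have hy : ∀ α, y α ∈ S := fun α =>
    Finset.mem_union_right _ (Finset.mem_image_of_mem _ (Finset.mem_univ _))
  refine ⟨fun α => ⟨rk (x α), hlt _ (hx α)⟩, fun α => ⟨rk (y α), hlt _ (hy α)⟩, ?_, ?_, ?_⟩
  · intro α β
    show x α < x β ↔ ((rk (x α) : ℕ) : ℤ) < ((rk (x β) : ℕ) : ℤ)
    rw [Nat.cast_lt]
    exact hmono _ (hx α) _ (hx β)
  · intro α β
    show y α < y β ↔ ((rk (y α) : ℕ) : ℤ) < ((rk (y β) : ℕ) : ℤ)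
    rw [Nat.cast_lt]
    exact hmono _ (hy α) _ (hy β)
  · intro α h
    apply Fin.ext
    show rk (x α) = rk (y α)
    rw [h]

end Pool.Agent.helper35.MR
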