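import Pool.Agent.helper35.MR.SpecB

/-! Module SLC of project mr (MP_b48e27_co): slices of tensors of order four. -/

set_option autoImplicit false

open Finset

namespace Pool.Agent.helper35.MR

open Pool.Agent.RRank

section
variable {K : Type} [Field K] {Q : Fin 4 → Type}

lemma SLC_compl (α : Fin 4) : (({α} : Finset (Fin 4))ᶜ).Nonempty := by
  revert α
  decide

/-- a product of a function of one coordinate and one of the others has slice rank at most one -/
lemma SLC_one (α : Fin 4) {f g : ((α : Fin 4) → Q α) → K}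
    (hf : DependsOn f (({α} : Finset (Fin 4)) : Set (Fin 4)))
    (hg : DependsOn g ((({α} : Finset (Fin 4))ᶜ : Finset (Fin 4)) : Set (Fin 4))) :
    RankLEOne (slices 4) (fun x => f x * g x) := by
  classical
  have h1 : ({α} : Finset (Fin 4)).Nonempty := Finset.singleton_nonempty α
  have h2 := SLC_compl α
  refine rankLEOne_iff.2 ⟨pairPartition {α} h1 h2, ⟨pairPartition_mem {α} h1 h2, α, ?_⟩,
    fun J x => if J = {α} then f x else g x, ?_, ?_⟩
  · show {α} ∈ ({{α}, {α}ᶜ} : Finset (Finset (Fin 4)))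
    simp
  · intro J hJ x y hxy
    have hJ' : J = {α} ∨ J = {α}ᶜ := by
      have : J ∈ ({{α}, {α}ᶜ} : Finset (Finset (Fin 4))) := hJ
      simpa using this
    dsimp only
    rcases hJ' with rfl | rfl
    · rw [if_pos rfl, if_pos rfl]; exact hf hxy
    · rw [if_neg (ne_compl_of_nonempty h1).symm, if_neg (ne_compl_of_nonempty h1).symm]
      exact hg hxy
  · intro x
    show f x * g x = ∏ J ∈ ({{α}, {α}ᶜ} : Finset (Finset (Fin 4))), if J = {α} then f x else g x
    rw [Finset.prod_pair (ne_compl_of_nonempty h1), if_pos rfl,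
      if_neg (ne_compl_of_nonempty h1).symm]

lemma SLC_eta (x : (α : Fin 4) → Q α) : mk4 (x 0) (x 1) (x 2) (x 3) = x := by
  funext α
  match α with
  | 0 => rfl
  | 1 => rfl
  | 2 => rfl
  | 3 => rfl

/-- the two factors of a slice -/
lemma SLC_two {t : ((α : Fin 4) → Q α) → K} (h : RankLEOne (slices 4) t) :
    ∃ (α : Fin 4) (f g : ((α : Fin 4) → Q α) → K),
      (∀ x y, x α = y α → f x = f y) ∧ (∀ x y, (∀ β, β ≠ α → x β = y β) → g x = g y) ∧
      ∀ x, t x = f x * g x := by
  classical
  obtain ⟨P, ⟨hP, α, hα⟩, b, hb, ht⟩ := rankLEOne_iff.1 h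
  have h1 : (P.parts.erase {α}).card = 1 := by
    rw [Finset.card_erase_of_mem hα, hP]
  obtain ⟨J, hJ⟩ := Finset.card_eq_one.1 h1
  have hJm : J ∈ P.parts.erase {α} := by rw [hJ]; simp
  have hJP := Finset.mem_of_mem_erase hJm
  have hne := Finset.ne_of_mem_erase hJm
  refine ⟨α, b {α}, b J, ?_, ?_, ?_⟩
  · intro x y hxy
    apply hb {α} hα
    intro β hβ
    rw [Finset.mem_coe, Finset.mem_singleton] at hβ
    rw [hβ]
    exact hxy
  · intro x y hxy
    apply hb J hJP
    intro β hβ
    apply hxy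
    rintro rfl
    exact (Finset.disjoint_left.1 (P.disjoint hJP hα hne)) hβ (Finset.mem_singleton_self _)
  · intro x
    rw [ht, ← Finset.mul_prod_erase _ _ hα, hJ, Finset.prod_singleton]

end

theorem SLC : SLC_stmt := by
  intro K _ Q T
  constructor
  · rintro r ⟨a, a', b, b', c, c', d, d', h⟩
    let t : Fin 4 × Fin r → ((α : Fin 4) → Q α) → K := fun p => match p with
      | (0, n) => fun x => a n (x 0) * a' n (x 1) (x 2) (x 3)
      | (1, n) => fun x => b n (x 1) * b' n (x 0) (x 2) (x 3)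
      | (2, n) => fun x => c n (x 2) * c' n (x 0) (x 1) (x 3)
      | (3, n) => fun x => d n (x 3) * d' n (x 0) (x 1) (x 2)
    have ht : ∀ p ∈ (univ : Finset (Fin 4 × Fin r)), RankLEOne (slices 4) (t p) := by
      rintro ⟨α, n⟩ _
      match α with
      | 0 =>
        refine SLC_one 0 (f := fun x => a n (x 0)) (g := fun x => a' n (x 1) (x 2) (x 3)) ?_ ?_
        · intro x y hxy
          show a n (x 0) = a n (y 0)
          rw [hxy 0 (by simp)]
        · intro x y hxy
          show a' n (x 1) (x 2) (x 3) = a' n (y 1) (y 2) (y 3)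
          rw [hxy 1 (by simp), hxy 2 (by simp), hxy 3 (by simp)]
      | 1 =>
        refine SLC_one 1 (f := fun x => b n (x 1)) (g := fun x => b' n (x 0) (x 2) (x 3)) ?_ ?_
        · intro x y hxy
          show b n (x 1) = b n (y 1)
          rw [hxy 1 (by simp)]
        · intro x y hxy
          show b' n (x 0) (x 2) (x 3) = b' n (y 0) (y 2) (y 3)
          rw [hxy 0 (by simp), hxy 2 (by simp), hxy 3 (by simp)]
      | 2 =>
        refine SLC_one 2 (f := fun x => c n (x 2)) (g := fun x => c' n (x 0) (x 1) (x 3)) ?_ ?_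
        · intro x y hxy
          show c n (x 2) = c n (y 2)
          rw [hxy 2 (by simp)]
        · intro x y hxy
          show c' n (x 0) (x 1) (x 3) = c' n (y 0) (y 1) (y 3)
          rw [hxy 0 (by simp), hxy 1 (by simp), hxy 3 (by simp)]
      | 3 =>
        refine SLC_one 3 (f := fun x => d n (x 3)) (g := fun x => d' n (x 0) (x 1) (x 2)) ?_ ?_
        · intro x y hxy
          show d n (x 3) = d n (y 3)
          rw [hxy 3 (by simp)]
        · intro x y hxy
          show d' n (x 0) (x 1) (x 2) = d' n (y 0) (y 1) (y 2)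
          rw [hxy 0 (by simp), hxy 1 (by simp), hxy 2 (by simp)]
    have hT : ∀ x, T x = ∑ p ∈ (univ : Finset (Fin 4 × Fin r)), t p x := by
      intro x
      rw [← Finset.univ_product_univ, Finset.sum_product, Fin.sum_univ_four]
      have h2 := h (x 0) (x 1) (x 2) (x 3)
      simp only [SLC_eta] at h2
      rw [h2]
      rfl
    have h3 := SumOf.of_finset univ t ht hT
    have h4 : (univ : Finset (Fin 4 × Fin r)).card = 4 * r := by
      simp
    rwa [h4] at h3
  · rintro N ⟨t, ht, hT⟩
    refine ⟨fun n x y z w => t n (mk4 x y z w), ?_, fun x y z w => hT _⟩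
    intro n
    by_cases hne : Nonempty ((α : Fin 4) → Q α)
    · obtain ⟨x₀⟩ := hne
      obtain ⟨α, f, g, hf, hg, hfg⟩ := SLC_two (ht n)
      match α with
      | 0 =>
        refine Or.inl ⟨fun x => f (mk4 x (x₀ 1) (x₀ 2) (x₀ 3)), fun y z w => g (mk4 (x₀ 0) y z w),
          fun x y z w => ?_⟩
        show t n (mk4 x y z w) = _
        rw [hfg, hf (mk4 x y z w) (mk4 x (x₀ 1) (x₀ 2) (x₀ 3)) rfl,
          hg (mk4 x y z w) (mk4 (x₀ 0) y z w) ?_]
        intro β hβ
        match β with
        | 0 => exact absurd rfl hβ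
        | 1 => rfl
        | 2 => rfl
        | 3 => rfl
      | 1 =>
        refine Or.inr (Or.inl ⟨fun y => f (mk4 (x₀ 0) y (x₀ 2) (x₀ 3)),
          fun x z w => g (mk4 x (x₀ 1) z w), fun x y z w => ?_⟩)
        show t n (mk4 x y z w) = _
        rw [hfg, hf (mk4 x y z w) (mk4 (x₀ 0) y (x₀ 2) (x₀ 3)) rfl,
          hg (mk4 x y z w) (mk4 x (x₀ 1) z w) ?_]
        intro β hβ
        match β with
        | 0 => rfl
        | 1 => exact absurd rfl hβ
        | 2 => rfl
        | 3 => rfl
      | 2 =>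
        refine Or.inr (Or.inr (Or.inl ⟨fun z => f (mk4 (x₀ 0) (x₀ 1) z (x₀ 3)),
          fun x y w => g (mk4 x y (x₀ 2) w), fun x y z w => ?_⟩))
        show t n (mk4 x y z w) = _
        rw [hfg, hf (mk4 x y z w) (mk4 (x₀ 0) (x₀ 1) z (x₀ 3)) rfl,
          hg (mk4 x y z w) (mk4 x y (x₀ 2) w) ?_]
        intro β hβ
        match β with
        | 0 => rfl
        | 1 => rfl
        | 2 => exact absurd rfl hβ
        | 3 => rfl
      | 3 =>
        refine Or.inr (Or.inr (Or.inr ⟨fun w => f (mk4 (x₀ 0) (x₀ 1) (x₀ 2) w),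
          fun x y z => g (mk4 x y z (x₀ 3)), fun x y z w => ?_⟩))
        show t n (mk4 x y z w) = _
        rw [hfg, hf (mk4 x y z w) (mk4 (x₀ 0) (x₀ 1) (x₀ 2) w) rfl,
          hg (mk4 x y z w) (mk4 x y z (x₀ 3)) ?_]
        intro β hβ
        match β with
        | 0 => rfl
        | 1 => rfl
        | 2 => rfl
        | 3 => exact absurd rfl hβ
    · exact Or.inl ⟨fun _ => 0, fun _ _ _ => 0, fun x y z w => (hne ⟨mk4 x y z w⟩).elim⟩

end Pool.Agent.helper35.MR
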