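import Pool.Agent.helper35.MR.SpecB

/-! Module TR of project mr (MP_b48e27_co): transfer of the dependence on coordinates. -/

set_option autoImplicit false

open Finset

namespace Pool.Agent.helper35.MR

open Pool.Agent.RRank

theorem TR (hCMR : CMR_stmt) : TR_stmt := by
  intro m N hN V hV Q F f hF K φ I hφ x y hxy
  obtain ⟨x', y', h1, h2, h3⟩ := hCMR x y
  let e : Fin 8 → Fin N := Fin.castLE hN
  have hx : V x = F (fun α => f α (e (x' α))) := by
    rw [hF, hV x _ h1]
    rfl
  have hy : V y = F (fun α => f α (e (y' α))) := by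
    rw [hF, hV y _ h2]
    rfl
  show φ (V x) = φ (V y)
  rw [hx, hy]
  apply hφ
  intro α hα
  show f α (e (x' α)) = f α (e (y' α))
  rw [h3 α (hxy α hα)]

end Pool.Agent.helper35.MR
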