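import Pool.Agent.helper35.MR.SpecB

/-! Module HSY of project mr (MP_b48e27_co): symmetry of `hyp`. -/

set_option autoImplicit false

open Finset

namespace Pool.Agent.helper35.MR

open Pool.Agent.RRank

theorem HSY : HSY_stmt := by
  intro K X Y Z W _ T l x y z w
  constructor
  · unfold hyp
    rw [Finset.sum_comm]
    refine Finset.sum_congr rfl fun τ _ => Finset.sum_congr rfl fun σ _ =>
      Finset.sum_congr rfl fun ρ _ => ?_
    rw [mul_comm (Equiv.Perm.sign σ) (Equiv.Perm.sign τ)]
  · unfold hyp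
    -- left: sum over `σ τ ρ` of the term `(τ, ρ, σ)`
    rw [Finset.sum_comm]
    refine Finset.sum_congr rfl fun τ _ => ?_
    rw [Finset.sum_comm]
    refine Finset.sum_congr rfl fun ρ _ => Finset.sum_congr rfl fun σ _ => ?_
    have h : Equiv.Perm.sign σ * Equiv.Perm.sign τ * Equiv.Perm.sign ρ =
        Equiv.Perm.sign τ * Equiv.Perm.sign ρ * Equiv.Perm.sign σ := by
      rw [mul_comm, mul_comm (Equiv.Perm.sign σ), ← mul_assoc, mul_comm (Equiv.Perm.sign ρ)]
    rw [h]

end Pool.Agent.helper35.MR
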