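import Pool.Agent.helper35.MR.SpecB

/-! Module HYV of project mr (MP_b48e27_co): a value of `hyp`. -/

set_option autoImplicit false

open Finset

namespace Pool.Agent.helper35.MR

open Pool.Agent.RRank

theorem HYV : HYV_stmt := by
  intro K _ l c
  unfold hyp
  have h1 : ∀ σ τ ρ : Equiv.Perm (Fin l), ∏ i : Fin l, (if (id i : Fin l) = id (σ i) ∧
      id (τ i) = id (ρ i) then c else 0) = if σ = 1 ∧ τ = ρ then c ^ l else 0 := by
    intro σ τ ρ
    rw [Finset.prod_ite_zero]
    have h2 : (∀ i ∈ (univ : Finset (Fin l)), (id i : Fin l) = id (σ i) ∧ id (τ i) = id (ρ i)) ↔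
        σ = 1 ∧ τ = ρ := by
      constructor
      · intro h
        constructor
        · ext i
          have := (h i (Finset.mem_univ i)).1
          simp only [id] at this
          rw [Equiv.Perm.one_apply, ← this]
        · ext i
          have := (h i (Finset.mem_univ i)).2
          simp only [id] at this
          rw [this]
      · rintro ⟨rfl, rfl⟩ i _
        exact ⟨rfl, rfl⟩
    by_cases h : σ = 1 ∧ τ = ρ
    · rw [if_pos (h2.2 h), if_pos h]
      simp
    · rw [if_neg (fun h3 => h (h2.1 h3)), if_neg h]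
  simp only [h1]
  have h3 : ∀ σ : Equiv.Perm (Fin l), σ ≠ 1 → (∑ τ : Equiv.Perm (Fin l), ∑ ρ : Equiv.Perm (Fin l),
      (((Equiv.Perm.sign σ * Equiv.Perm.sign τ * Equiv.Perm.sign ρ : ℤˣ) : ℤ) : K) *
        (if σ = 1 ∧ τ = ρ then c ^ l else 0)) = 0 := by
    intro σ hσ
    apply Finset.sum_eq_zero
    intro τ _
    apply Finset.sum_eq_zero
    intro ρ _
    rw [if_neg (fun h => hσ h.1), mul_zero]
  rw [Finset.sum_eq_single (1 : Equiv.Perm (Fin l)) (fun σ _ hσ => h3 σ hσ)
    (fun h => absurd (Finset.mem_univ _) h)]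
  have h4 : ∀ τ : Equiv.Perm (Fin l), (∑ ρ : Equiv.Perm (Fin l),
      (((Equiv.Perm.sign (1 : Equiv.Perm (Fin l)) * Equiv.Perm.sign τ * Equiv.Perm.sign ρ : ℤˣ) : ℤ)
        : K) * (if (1 : Equiv.Perm (Fin l)) = 1 ∧ τ = ρ then c ^ l else 0)) = c ^ l := by
    intro τ
    rw [Finset.sum_eq_single τ]
    · rw [if_pos ⟨rfl, rfl⟩, Equiv.Perm.sign_one, one_mul, Int.units_mul_self]
      simp
    · intro ρ _ hρ
      rw [if_neg (fun h => hρ h.2.symm), mul_zero]
    · exact fun h => absurd (Finset.mem_univ _) h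
  rw [Finset.sum_congr rfl fun τ _ => h4 τ, Finset.sum_const, Finset.card_univ, Fintype.card_perm, Fintype.card_fin, nsmul_eq_mul]

end Pool.Agent.helper35.MR
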